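import Pool.Agent.Lib_helper44.G5.Defs

/-!
# Almost all twists have no zeros off the line by more than `η`, at bounded height: definitions
-/

namespace Pool.Agent.G5

open Complex MeasureTheory Filter Topology

open Pool.Agent.G4

variable {m : ℕ}

/-- the density of `γ(1/2 + z) (L(1/2 + z) P_B(1/2 + z) - 1)` -/
noncomputable def EZ {S : Sys m} (k : Kers S) (B : Finset ℕ) : Fm := fun x u =>
  opTs (facs S B) (Dx k) x u - k.K (par x.2) u

/-- weighted norm -/
noncomputable def nzw (σ : ℝ) (E : ℝ → ℂ) : ℝ :=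
  ∫ u : ℝ, ‖E u‖ ^ 2 * ((1 + u ^ 2) * Real.exp (2 * σ * u))

end Pool.Agent.G5
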